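import Pool.Agent.W643.CE.Ext2

/-!
# Central extensions and the Chern character of projective modules over group algebras

`K` a field, `G` a group, `e` an idempotent matrix over `K[G]`.

(1) For every central extension `A → H → G` and all `n` the matrix `e` lifts to a matrix `E` over
`K[H]` with `E * E - E` in `I ^ (n + 1)`, where `I` is the kernel of `K[H] → K[G]`; and for every
such lift, `1 ≤ m ≤ n` and additive maps `μ_1, …, μ_m : A → K`
`∑_{a ∈ A} tr(E)_a μ_1(a) ⋯ μ_m(a) = 0`.
By the theory of Connes, Karoubi and Cuntz-Quillen this sum is the value of the class of `e` in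
`K_0(KG)` on the cup product of the `m` classes of `H^2(G; K)` defined by the `μ_i` and the
extension, through the component at the conjugacy class of `1` of the Chern-Connes character.

(2) For every two-cocycle `c : G × G → K` with `c (1, 1) = 0`
`∑_g tr(e_g e_{g⁻¹}) c(g, g⁻¹) = 2 ∑_{g, h} tr(e_g e_h e_{(gh)⁻¹}) c(g, h)`,
where `e = ∑ e_g g` with matrices `e_g` over `K`.

The group `G` is arbitrary if `K` has characteristic zero, and without `p`-torsion if the
characteristic of `K` is `p`.
-/

set_option autoImplicit false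

namespace Pool.Agent.Results.MP_1a2884_al.CentralChern

universe u1 u2 u3 u4

/-- the kernel of the ring homomorphism `K[H] → K[G]` induced by `π : H → G` -/
noncomputable def I (K : Type u1) [Field K] {H : Type u3} [Group H] {G : Type u2} [Group G]
    (π : H →* G) : Submodule K (MonoidAlgebra K H) :=
  LinearMap.ker (MonoidAlgebra.mapDomainAlgHom K K π).toLinearMap

/-- the matrix of the coefficients at `g` -/
def cf {K : Type u1} [Field K] {G : Type u2} {d : Type u4} (e : Matrix d d (MonoidAlgebra K G))
    (g : G) : Matrix d d K := Matrix.of fun i j => (e i j).coeff g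

theorem result (K : Type u1) [Field K] (G : Type u2) [Group G]
    (hK : CharZero K ∨ ∃ p : ℕ, p.Prime ∧ CharP K p ∧ ∀ g : G, g ^ p = 1 → g = 1)
    (d : Type u4) [Fintype d] [DecidableEq d] (e : Matrix d d (MonoidAlgebra K G))
    (he : e * e = e) :
    (∀ (H : Type u3) [Group H] (π : H →* G), Function.Surjective π →
      (∀ a ∈ π.ker, ∀ h : H, a * h = h * a) → ∀ n : ℕ,
        (∃ E : Matrix d d (MonoidAlgebra K H),
          E.map (MonoidAlgebra.mapDomainAlgHom K K π) = e ∧
          ∀ i j, (E * E - E) i j ∈ (I K π) ^ (n + 1)) ∧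
        ∀ E : Matrix d d (MonoidAlgebra K H),
          E.map (MonoidAlgebra.mapDomainAlgHom K K π) = e →
          (∀ i j, (E * E - E) i j ∈ (I K π) ^ (n + 1)) →
          ∀ m : ℕ, 1 ≤ m → m ≤ n → ∀ μ : Fin m → π.ker → K,
            (∀ i a b, μ i (a * b) = μ i a + μ i b) →
            ∑ᶠ a : π.ker, E.trace.coeff (a : H) * ∏ i, μ i a = 0) ∧
    (∀ c : G → G → K, (∀ x y z, c x y + c (x * y) z = c y z + c x (y * z)) → c 1 1 = 0 →
      ∀ S : Finset G, (∀ i j g, (e i j).coeff g ≠ 0 → g ∈ S) →
        ∑ g ∈ S, (cf e g * cf e g⁻¹).trace * c g g⁻¹ =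
          2 * ∑ g ∈ S, ∑ h ∈ S, (cf e g * cf e h * cf e (g * h)⁻¹).trace * c g h) := by
  refine ⟨?_, ?_⟩
  · intro H _ π hπ hcen n
    refine ⟨?_, ?_⟩
    · exact Pool.Agent.W643.CE.exists_lift_idem hπ e he n
    · intro E _ hE m hm hmn μ hμ
      exact Pool.Agent.W643.CE.comb hK π hcen hm hmn μ hμ E hE
  · intro c hc h1 S hS
    exact Pool.Agent.W643.CE.degree_two hK e he c hc h1 S hS

end Pool.Agent.Results.MP_1a2884_al.CentralChern
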