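import Pool.Agent.W647.K2
import Pool.Agent.W647.K3

/-!
# Chern-Connes characters of projective modules over group rings of commutative domains

For `R` a commutative domain of characteristic zero (a field, for example) and a torsion-free group
`G` which is linear over some field, or satisfies a weaker condition on conjugacy classes, every
finitely generated projective `R[G]`-module is indistinguishable from a free module by cycles of
even dimension over `R[G]` whose values on group elements lie in a finitely generated subring of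
`R`. Groups with torsion and coefficient rings of positive characteristic are also treated.
-/

set_option autoImplicit false

namespace Pool.Agent.Results.MP_1a2884_al.ChernConnesDomains

open Pool.Agent.H23R2 Pool.Agent.H23R2.Ch
open Pool.Agent.H26R2.Bass (tau tau_eq ind)
open Pool.Agent.H23R2.Cyc (ell ell_single ell_eq_sum)
open Pool.Agent.H26R2.IdemLI (AlmostDiv Series FinOrd no_div_series)

universe u v w z

/-- the conditions on finitely generated subgroups -/
lemma cond (G : Type v) [Group G]
    (hG : ((∀ H : Subgroup G, H.FG → {p : ℕ | p.Prime ∧ ∀ g ∈ H, g ^ p = 1 → g = 1}.Infinite) ∧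
        ((∀ H : Subgroup G, H.FG → ∀ g : H, AlmostDiv g → ∃ m : ℕ, 0 < m ∧ g ^ m = 1) ∨
          Series (⊤ : Subgroup G))) ∨
      (∃ (K : Type w) (_ : Field K) (N : ℕ) (φ : G →* GL (Fin N) K), Function.Injective φ)) :
    ∀ H : Subgroup G, H.FG → {p : ℕ | p.Prime ∧ ∀ g ∈ H, g ^ p = 1 → g = 1}.Infinite ∧
      ∀ g : H, AlmostDiv g → ∃ m : ℕ, 0 < m ∧ g ^ m = 1 := by
  rcases hG with ⟨h1, h2 | h2⟩ | ⟨K, iK, N, φ, hφ⟩
  · exact fun H hH => ⟨h1 H hH, h2 H hH⟩
  · exact fun H hH => ⟨h1 H hH, fun g hg => no_div_series ⊤ h2 H hH g trivial hg⟩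
  · intro H hH
    have : Group.FG H := (Group.fg_iff_subgroup_fg H).2 hH
    have hinj : Function.Injective (φ.comp H.subtype) := hφ.comp H.subtype_injective
    refine ⟨(Pool.Agent.W647.K3.infinite_no_torsion (φ.comp H.subtype) hinj).mono ?_,
      fun g hg => Pool.Agent.W647.K3.linear_noAD (φ.comp H.subtype) hinj g hg⟩
    rintro p ⟨hp, h1⟩
    refine ⟨hp, fun g hg hgp => ?_⟩
    have h2 := h1 ⟨g, hg⟩ (Subtype.ext (by simpa using hgp))
    exact congrArg Subtype.val h2

/-- If for `g ≠ 1` the class sum of `x` or the value of `f` vanishes at `g` then the trace function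
`f` takes the value `x₁ • f 1` on `x`. -/
lemma trace_value {R : Type u} [CommRing R] {G : Type v} [Group G] {M : Type w} [AddCommGroup M]
    [Module R M] (f : MonoidAlgebra R G →ₗ[R] M)
    (hf : ∀ g h : G, IsConj g h → f (MonoidAlgebra.single g 1) = f (MonoidAlgebra.single h 1))
    (x : MonoidAlgebra R G)
    (hx : ∀ g : G, g ≠ 1 → ell (ind R g) x = 0 ∨ f (MonoidAlgebra.single g 1) = 0) :
    f x = x.coeff 1 • f 1 := by
  classical
  have h1 : x = ∑ g ∈ x.coeff.support, MonoidAlgebra.single g (x.coeff g) := by
    apply MonoidAlgebra.coeff_injective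
    ext h
    rw [MonoidAlgebra.coeff_sum, Finset.sum_apply']
    by_cases hh : h ∈ x.coeff.support
    · rw [Finset.sum_eq_single h]
      · simp
      · intro b _ hb
        simp [hb]
      · intro h2
        exact absurd hh h2
    · rw [Finset.sum_eq_zero]
      · simpa using hh
      · intro b hb
        have : b ≠ h := fun h3 => hh (h3 ▸ hb)
        simp [this]
  have h2 : ∀ (g : G) (a : R), f (MonoidAlgebra.single g a) = a • f (MonoidAlgebra.single g 1) := by
    intro g a
    rw [← map_smul]
    congr 1
    simp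
  have h3 : f x = ∑ g ∈ x.coeff.support, x.coeff g • f (MonoidAlgebra.single g 1) := by
    conv_lhs => rw [h1]
    rw [map_sum]
    exact Finset.sum_congr rfl fun g _ => h2 _ _
  rw [h3]
  -- group by conjugacy classes
  rw [← Finset.sum_fiberwise_of_maps_to (t := x.coeff.support.image ConjClasses.mk)
    (g := ConjClasses.mk) (fun g hg => Finset.mem_image_of_mem _ hg)]
  have h4 : ∀ c ∈ x.coeff.support.image ConjClasses.mk, c ≠ ConjClasses.mk (1 : G) →
      ∑ g ∈ x.coeff.support with ConjClasses.mk g = c,
        x.coeff g • f (MonoidAlgebra.single g 1) = 0 := by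
    intro c hc hc1
    obtain ⟨g0, hg0, rfl⟩ := Finset.mem_image.1 hc
    have h5 : ∀ g ∈ x.coeff.support.filter (fun g => ConjClasses.mk g = ConjClasses.mk g0),
        x.coeff g • f (MonoidAlgebra.single g 1) =
        x.coeff g • f (MonoidAlgebra.single g0 1) := by
      intro g hg
      rw [hf g g0 (ConjClasses.mk_eq_mk_iff_isConj.1 (Finset.mem_filter.1 hg).2)]
    rw [Finset.sum_congr rfl h5, ← Finset.sum_smul]
    rcases hx g0 (fun h => hc1 (by rw [h])) with h7 | h7
    · have h6 : ∑ g ∈ x.coeff.support with ConjClasses.mk g = ConjClasses.mk g0,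
          x.coeff g = 0 := by
        rw [ell_eq_sum (ind R g0) x.coeff.support x
          (fun g hg => Finsupp.mem_support_iff.2 hg)] at h7
        rw [← h7, Finset.sum_filter]
        apply Finset.sum_congr rfl
        intro g _
        unfold ind
        simp only [ConjClasses.mk_eq_mk_iff_isConj]
        split_ifs <;> simp
      rw [h6, zero_smul]
    · rw [h7, smul_zero]
  by_cases hmem : (1 : G) ∈ x.coeff.support
  · rw [Finset.sum_eq_single (ConjClasses.mk (1 : G)) h4
      (fun h => absurd (Finset.mem_image_of_mem _ hmem) h)]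
    have h9 : x.coeff.support.filter (fun g => ConjClasses.mk g = ConjClasses.mk (1 : G)) = {1} := by
      ext g
      rw [Finset.mem_filter, Finset.mem_singleton, ConjClasses.mk_eq_mk_iff_isConj]
      constructor
      · rintro ⟨_, h⟩
        exact isConj_one_left.1 h
      · rintro rfl
        exact ⟨hmem, IsConj.refl _⟩
    rw [h9, Finset.sum_singleton]
    rfl
  · rw [Finset.sum_eq_zero]
    · have : x.coeff 1 = 0 := by simpa using hmem
      rw [this, zero_smul]
    · intro c hc
      apply h4 c hc
      rintro rfl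
      obtain ⟨g, hg, hg1⟩ := Finset.mem_image.1 hc
      have : g = 1 := isConj_one_left.1 (ConjClasses.mk_eq_mk_iff_isConj.1 hg1)
      rw [this] at hg
      exact hmem hg

/-- traces are concentrated on the elements of finite order -/
lemma degree_zero {R : Type u} [CommRing R] [IsDomain R] [CharZero R] (G : Type v) [Group G]
    (hH : ∀ H : Subgroup G, H.FG → ∀ g : H, AlmostDiv g → ∃ m : ℕ, 0 < m ∧ g ^ m = 1)
    (d : ℕ) (e : Matrix (Fin d) (Fin d) (MonoidAlgebra R G)) (he : e * e = e)
    (M : Type w) [AddCommGroup M] [Module R M] (f : MonoidAlgebra R G →ₗ[R] M)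
    (hf : ∀ x y, f (x * y) = f (y * x))
    (htors : ∀ g : G, g ≠ 1 → (∃ m : ℕ, 0 < m ∧ g ^ m = 1) → f (MonoidAlgebra.single g 1) = 0) :
    f e.trace = e.trace.coeff 1 • f 1 := by
  classical
  have hclass : ∀ g k : G, IsConj g k →
      f (MonoidAlgebra.single g 1) = f (MonoidAlgebra.single k 1) := by
    intro g k hgk
    obtain ⟨c, hc⟩ := isConj_iff.1 hgk
    have h1 : (MonoidAlgebra.single k 1 : MonoidAlgebra R G) =
        MonoidAlgebra.single c 1 * MonoidAlgebra.single (g * c⁻¹) 1 := by
      rw [MonoidAlgebra.single_mul_single, ← hc, mul_one]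
      congr 1
      group
    have h2 : (MonoidAlgebra.single g 1 : MonoidAlgebra R G) =
        MonoidAlgebra.single (g * c⁻¹) 1 * MonoidAlgebra.single c 1 := by
      rw [MonoidAlgebra.single_mul_single, mul_one]
      congr 1
      group
    rw [h1, h2, hf]
  refine trace_value f hclass e.trace fun g hg => ?_
  by_cases hfin : ∃ m : ℕ, 0 < m ∧ g ^ m = 1
  · right
    exact htors g hg hfin
  · left
    have hord : orderOf g = 0 := by
      rw [orderOf_eq_zero_iff']
      intro m hm hgm
      exact hfin ⟨m, hm, hgm⟩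
    have h1 : tau e g = 0 := by
      refine Pool.Agent.H26R2.Bass.bass_of_local ?_ e he g ?_
      · intro H hHfg x hx
        right; right
        exact ⟨inferInstance, fun hAD => hx (hH H hHfg x hAD)⟩
      · rw [hord, Nat.cast_zero]
        exact not_isUnit_zero
    rw [tau_eq, Pool.Agent.H23R2.Cyc.tf_apply] at h1
    rw [← h1, Matrix.trace, map_sum]
    rfl

/-- Let `R` be a commutative domain of characteristic `0` and `G` a group such that either
every finitely generated subgroup `H` has no element of order `p` for infinitely many primes `p`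
and the elements of `H` that are almost divisible in `H` (conjugate in `H` to `g ^ (n ^ J)` for all
`n` prime to `m`, for some `m ≥ 2`, `J ≥ 1`) have finite order, the latter being automatic if `G`
has a finite series of normal subgroups whose factors are periodic, or abelian of finite rank, or
satisfy `ChainFin`; or `G` is linear over some field. Let `e` be an idempotent matrix over `R[G]`.
Then `T (tr (e (δ e) ^ (2 n))) = (tr e)₁ • T ((δ 1) ^ (2 n))` for every cycle `(Ω, δ, T)` of
dimension `2 n ≥ 0` over `R[G]` with values in `R`, such that the values `T (g₀ δg₁ ⋯ δg₂ₙ)` at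
elements of any finitely generated subgroup of `G` lie in a finitely generated subring of `R`, and
vanish if `g₀ g₁ ⋯ g₂ₙ ≠ 1` has finite order (no condition if `G` is torsion-free). Here `(tr e)₁`
is the coefficient of the trace of `e` at the neutral element of `G`. -/
theorem result (R : Type u) [CommRing R] [IsDomain R] [CharZero R] (G : Type v) [Group G]
    (hG : ((∀ H : Subgroup G, H.FG → {p : ℕ | p.Prime ∧ ∀ g ∈ H, g ^ p = 1 → g = 1}.Infinite) ∧
        ((∀ H : Subgroup G, H.FG → ∀ g : H, AlmostDiv g → ∃ m : ℕ, 0 < m ∧ g ^ m = 1) ∨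
          Series (⊤ : Subgroup G))) ∨
      (∃ (K : Type w) (_ : Field K) (N : ℕ) (φ : G →* GL (Fin N) K), Function.Injective φ))
    (d : ℕ) (e : Matrix (Fin d) (Fin d) (MonoidAlgebra R G)) (he : e * e = e)
    (n : ℕ) (Ω : Type z) [Ring Ω] [Algebra R Ω] (𝒜 : ℕ → Submodule R Ω)
    [GradedAlgebra 𝒜] (δ : Ω →ₗ[R] Ω) (T : Ω →ₗ[R] R) (h : IsCycle (2 * n) 𝒜 δ T)
    (ρ : MonoidAlgebra R G →ₐ[R] Ω) (hρ : ∀ a, ρ a ∈ 𝒜 0)
    (hT : ∀ H : Subgroup G, H.FG → ∃ s : Finset R, ∀ a ∈ H, ∀ l : List G, (∀ b ∈ l, b ∈ H) →
      l.length = 2 * n → T (ρ (MonoidAlgebra.single a 1) *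
        (l.map fun b => δ (ρ (MonoidAlgebra.single b 1))).prod) ∈ Algebra.adjoin ℤ (s : Set R))
    (htors : ∀ (a : G) (l : List G), l.length = 2 * n → a * l.prod ≠ 1 →
      (∃ m : ℕ, 0 < m ∧ (a * l.prod) ^ m = 1) → T (ρ (MonoidAlgebra.single a 1) *
        (l.map fun b => δ (ρ (MonoidAlgebra.single b 1))).prod) = 0) :
    T ((e.map ρ) * ((e.map ρ).map δ) ^ (2 * n)).trace =
      e.trace.coeff 1 • T ((δ 1) ^ (2 * n)) := by
  have hH := cond G hG
  rcases Nat.eq_zero_or_pos n with rfl | hn
  · have h6 := degree_zero G (fun H hHfg => (hH H hHfg).2) d e he R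
      (T.comp ρ.toLinearMap) (fun x y => by
        show T (ρ (x * y)) = T (ρ (y * x))
        rw [map_mul ρ, map_mul ρ, h.trace 0 0 _ (hρ _) _ (hρ _)]
        simp) (fun g hg hfin => by
        have h1 := htors g [] rfl (by simpa using hg) (by simpa using hfin)
        simpa using h1)
    have h7 : (e.map ρ).trace = ρ e.trace := by
      simp [Matrix.trace, Matrix.map_apply, map_sum]
    rw [mul_zero, pow_zero, pow_zero, mul_one, h7]
    have h8 : T (ρ e.trace) = e.trace.coeff 1 • T (ρ 1) := h6
    rw [h8, map_one ρ]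
  · obtain ⟨h1, h2⟩ := hH (Pool.Agent.H290R4.ChernZ.supp e) (Pool.Agent.H290R4.ChernZ.supp_fg e)
    obtain ⟨s, hs⟩ := hT _ (Pool.Agent.H290R4.ChernZ.supp_fg e)
    have h3 := Pool.Agent.W647.K2.vanish_supp (algebraMap R (FractionRing R))
      (IsFractionRing.injective R (FractionRing R)) hn h hρ e he
      (Pool.Agent.H290R4.ChernZ.supp e)
      (fun i i' g hg => Subgroup.subset_closure ⟨i, i', hg⟩) s hs h1 (by
        intro g hg1 hAD a ha l hl hlen hal
        obtain ⟨m, hm, hgm⟩ := h2 g hAD
        refine htors a l hlen ?_ ⟨m, hm, ?_⟩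
        · rw [hal]
          intro h0
          exact hg1 (Subtype.ext h0)
        · rw [hal]
          simpa using congrArg Subtype.val hgm)
    have h4 : δ 1 = 0 := by
      have h5 := h.leibniz 0 1 SetLike.GradedOne.one_mem 1
      rw [mul_one, pow_zero, one_mul, one_mul, mul_one] at h5
      exact left_eq_add.1 h5
    rw [h3, h4, zero_pow (by omega), map_zero, smul_zero]

end Pool.Agent.Results.MP_1a2884_al.ChernConnesDomains
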