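import Pool.Agent.W463.CI.Free
import Pool.Agent.W612.CI.Af1
import Pool.Agent.W930.CI.Algf

/-!
# Projective modules over group rings in characteristic `p` and finite-dimensional algebras
-/

set_option autoImplicit false

namespace Pool.Agent.Results.MP_1a2884_al.RankRigidity

open W463.CI

universe u v w z v'

/-- Let `K` be a field of characteristic `p > 0`, `G` a group.

(1) Let `E` be an idempotent `m × m` matrix over `K[G]` and `r` the rank of its augmentation. Let
`A` be a finite-dimensional algebra over an extension field `F` of `K` and `t : G → A` a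
homomorphism to the multiplicative monoid of `A`. If no `g ≠ 1` in `G` is conjugate to `g ^ (p ^ i)`
with `i ≥ 1`, or if the image of `t` has no element `≠ 1` of finite order prime to `p`, then the
image `t(E)` of `E` over `A` is `X Y` where `Y X` is the identity matrix of size `r`: the projective
`A`-module defined by `E` is free of rank `r`.

(2) Suppose that no `g ≠ 1` in `G` is conjugate to `g ^ (p ^ i)` with `i ≥ 1` and that all finitely
generated subgroups of `G` are residually finite; or that `G` is torsion-free and embeds in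
`GL_n(F)` for a field `F` of positive characteristic. If the augmentation of an idempotent matrix
`E` over `K[G]` is `0`, then `E = 0`; and the only idempotents of `K[G]` are `0` and `1`. -/
theorem result (p : ℕ) [Fact p.Prime] (K : Type u) [Field K] [CharP K p] (G : Type w) [Group G] :
    (∀ (m : ℕ) (E : Matrix (Fin m) (Fin m) (MonoidAlgebra K G)), E * E = E →
      ∀ (r : ℕ), r = (Matrix.of fun i j => (E i j).coeff.sum fun _ a => a).rank →
      ∀ (F : Type v) [Field F] (φ : K →+* F) (A : Type z) [Ring A] [Algebra F A]
        [Module.Finite F A] (t : G →* A),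
      ((∀ g h : G, ∀ i : ℕ, 1 ≤ i → h * g * h⁻¹ = g ^ (p ^ i) → g = 1) ∨
        (∀ g : G, ∀ k : ℕ, k.Coprime p → t g ^ k = 1 → t g = 1)) →
      ∃ (X : Matrix (Fin m) (Fin r) A) (Y : Matrix (Fin r) (Fin m) A),
        X * Y = (Matrix.of fun i j =>
          (E i j).coeff.sum fun g a => algebraMap F A (φ a) * t g) ∧ Y * X = 1) ∧
    (((∀ g h : G, ∀ i : ℕ, 1 ≤ i → h * g * h⁻¹ = g ^ (p ^ i) → g = 1) ∧
        ∀ H : Subgroup G, H.FG → Group.ResiduallyFinite H) ∨
      ((∀ g : G, ∀ k : ℕ, 0 < k → g ^ k = 1 → g = 1) ∧
        ∃ (F : Type v') (_ : Field F) (q : ℕ) (_ : Fact q.Prime) (_ : CharP F q) (n : ℕ)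
          (φ : G →* GL (Fin n) F), Function.Injective φ) →
      (∀ (m : ℕ) (E : Matrix (Fin m) (Fin m) (MonoidAlgebra K G)), E * E = E →
        (∀ i j, ((E i j).coeff.sum fun _ a => a) = 0) → E = 0) ∧
      ∀ e : MonoidAlgebra K G, e * e = e → e = 0 ∨ e = 1) := by
  refine ⟨?_, ?_⟩
  · rintro m E hE r rfl F _ φ A _ _ _ t ht
    rcases ht with hG | ht
    · exact free_of (Pool.Agent.W930.CI.algf Pool.Agent.W612.CI.af1) p K G hG m E hE F φ A t
    · exact free_of' (Pool.Agent.W930.CI.algf Pool.Agent.W612.CI.af1) p K G m E hE F φ A t ht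
  · intro hG
    have hv : ∀ (m : ℕ) (E : Matrix (Fin m) (Fin m) (MonoidAlgebra K G)), E * E = E →
        (∀ i j, ((E i j).coeff.sum fun _ a => a) = 0) → E = 0 := fun m E hE h0 =>
      vanish p K G hG m E hE (by ext i j; exact h0 i j)
    refine ⟨hv, fun e he => ?_⟩
    -- the augmentation
    let ε : MonoidAlgebra K G →+* K :=
      (MonoidAlgebra.lift K K G (1 : G →* K)).toRingHom
    have hε : ∀ x : MonoidAlgebra K G, ε x = x.coeff.sum fun _ a => a := by
      intro x
      show MonoidAlgebra.lift K K G (1 : G →* K) x = _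
      rw [MonoidAlgebra.lift_apply]
      simp
    have hz : ∀ x : MonoidAlgebra K G, x * x = x → ε x = 0 → x = 0 := by
      intro x hx h0
      have h1 := hv 1 (Matrix.of fun _ _ => x) (by
        ext i j
        simp [Matrix.mul_apply, hx]) (fun i j => by
        rw [Matrix.of_apply, ← hε, h0])
      have h2 := congrFun (congrFun h1 0) 0
      simpa using h2
    have h1 : ε e * ε e = ε e := by rw [← map_mul, he]
    rcases IsIdempotentElem.iff_eq_zero_or_one.mp h1 with h2 | h2
    · exact Or.inl (hz e he h2)
    · right
      have h3 := hz (1 - e) (IsIdempotentElem.one_sub (show IsIdempotentElem e from he))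
        (by rw [map_sub, map_one, h2, sub_self])
      exact (sub_eq_zero.mp h3).symm

end Pool.Agent.Results.MP_1a2884_al.RankRigidity
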